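import Pool.Agent.H90Cyc.Link

/-!
Every finite simple graph with `m` edges has at most `3 m (1.3817) ^ m` cycles. Hence the maximum
number of cycles `c (m)` is at most `(3 ^ (1/3) - ε) ^ m` for all large `m`.
-/

namespace Pool.Agent.Results.MP_16979d_co.CyclesUpper

open Pool.Agent.H90Cyc Filter

theorem bound (n : ℕ) (G : SimpleGraph (Fin n)) :
    (numCycles G : ℝ) ≤ 3 * (G.edgeSet.ncard : ℝ) * (1.3817 : ℝ) ^ G.edgeSet.ncard := by
  classical
  have h := numCycles_le G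
  have h1 : G.edgeSet.ncard = G.edgeFinset.card := by
    rw [← Set.ncard_coe_finset, SimpleGraph.coe_edgeFinset]
  rw [h1]
  have h2 : (1.3817 : ℝ) = 13817 / 10000 := by norm_num
  rw [h2]
  exact h

theorem maxBound (m : ℕ) : (maxCycles m : ℝ) ≤ 3 * (m : ℝ) * (1.3817 : ℝ) ^ m := by
  unfold maxCycles
  rcases Set.eq_empty_or_nonempty {c : ℕ | ∃ (n : ℕ) (G : SimpleGraph (Fin n)),
    G.edgeSet.ncard = m ∧ numCycles G = c} with h | h
  · rw [h]; simp only [csSup_empty, Nat.bot_eq_zero, Nat.cast_zero]; positivity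
  · have hb : BddAbove {c : ℕ | ∃ (n : ℕ) (G : SimpleGraph (Fin n)),
        G.edgeSet.ncard = m ∧ numCycles G = c} := by
      refine ⟨⌊3 * (m : ℝ) * (1.3817 : ℝ) ^ m⌋₊, ?_⟩
      rintro c ⟨n, G, hG, rfl⟩
      refine Nat.le_floor ?_
      have := bound n G
      rwa [hG] at this
    obtain ⟨n, G, hG, hc⟩ := Nat.sSup_mem h hb
    rw [← hc]
    have := bound n G
    rwa [hG] at this

theorem eventually_le : ∃ ε > 0, ∀ᶠ m : ℕ in atTop,
    (maxCycles m : ℝ) ≤ ((3 : ℝ) ^ ((1 : ℝ) / 3) - ε) ^ m := by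
  have h3 : (1.44 : ℝ) < (3 : ℝ) ^ ((1 : ℝ) / 3) := by
    rw [Real.lt_rpow_iff_log_lt (by norm_num) (by norm_num)] 
    have : Real.log (1.44 ^ 3) < Real.log 3 := Real.log_lt_log (by norm_num) (by norm_num)
    rw [Real.log_pow] at this
    push_cast at this
    linarith
  refine ⟨(3 : ℝ) ^ ((1 : ℝ) / 3) - 1.4, by linarith, ?_⟩
  rw [sub_sub_cancel]
  -- `3 m (1.3817 / 1.4) ^ m` tends to zero
  have ht : Tendsto (fun m : ℕ => (m : ℝ) ^ 1 * (1.3817 / 1.4 : ℝ) ^ m) atTop (nhds 0) :=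
    tendsto_pow_const_mul_const_pow_of_abs_lt_one 1 (by rw [abs_of_pos] <;> norm_num)
  have he : ∀ᶠ m : ℕ in atTop, (m : ℝ) ^ 1 * (1.3817 / 1.4 : ℝ) ^ m < 1 / 3 :=
    ht.eventually_lt_const (by norm_num)
  filter_upwards [he] with m hm
  refine le_trans (maxBound m) ?_
  rw [div_pow, pow_one] at hm
  have hp : (0 : ℝ) < (1.4 : ℝ) ^ m := by positivity
  rw [← mul_div_assoc, div_lt_iff₀ hp] at hm
  linarith

/-- Every simple graph with `m` edges has at most `3 m (1.3817) ^ m` cycles; consequently the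
largest number of cycles of a graph with `m` edges is at most `(3 ^ (1/3) - ε) ^ m` for all
large `m`. -/
theorem result :
    (∀ (n : ℕ) (G : SimpleGraph (Fin n)),
      (numCycles G : ℝ) ≤ 3 * (G.edgeSet.ncard : ℝ) * (1.3817 : ℝ) ^ G.edgeSet.ncard) ∧
    (∀ m : ℕ, (maxCycles m : ℝ) ≤ 3 * (m : ℝ) * (1.3817 : ℝ) ^ m) ∧
    ∃ ε > 0, ∀ᶠ m : ℕ in atTop, (maxCycles m : ℝ) ≤ ((3 : ℝ) ^ ((1 : ℝ) / 3) - ε) ^ m :=
  ⟨bound, maxBound, eventually_le⟩

end Pool.Agent.Results.MP_16979d_co.CyclesUpper
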