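import Pool.Agent.CycL.Lim

set_option autoImplicit false

/-!
The growth rate of the maximum number of cycles of a graph with `m` edges exists.
-/

namespace Pool.Agent.Results.MP_16979d_co.GrowthRate

open Pool.Agent.H90Cyc Filter Topology Pool.Agent.CycL

/-- The limit `κ` of `maxCycles m ^ (1 / m)` exists; `maxCycles m ≤ (m / 3) κ ^ m` for every `m`; and
`κ` is the supremum, over all finite graphs `G` and all edges `e` of `G`, of the `|E(G)|`-th root of
the number of cycles of `G` through `e`. -/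
theorem result : ∃ κ : ℝ,
    Tendsto (fun m : ℕ => (maxCycles m : ℝ) ^ ((1 : ℝ) / m)) atTop (𝓝 κ) ∧
    (∀ m : ℕ, (maxCycles m : ℝ) ≤ m / 3 * κ ^ m) ∧
    IsLUB {x : ℝ | ∃ (n : ℕ) (G : SimpleGraph (Fin n)) (e : Sym2 (Fin n)), e ∈ G.edgeSet ∧
      x = (({C | C ∈ cycleSet G ∧ e ∈ C} : Set (Set (Sym2 (Fin n)))).ncard : ℝ)
        ^ ((1 : ℝ) / G.edgeSet.ncard)} κ := by
  refine ⟨kappa, tendsto_maxCycles, maxCycles_le_kappa, ?_, ?_⟩
  · rintro x ⟨n, G, e, he, rfl⟩
    have hm : G.edgeSet.ncard ≠ 0 := by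
      rw [Ne, Set.ncard_eq_zero (Set.toFinite _)]
      intro h
      rw [h] at he
      exact he
    have h1 : ((thru G e).ncard : ℝ) ≤ kappa ^ G.edgeSet.ncard :=
      le_trans (by exact_mod_cast le_q G he) (q_le_kappa _ hm)
    have h2 := Real.rpow_le_rpow (z := (1 : ℝ) / G.edgeSet.ncard) (Nat.cast_nonneg _) h1
      (by positivity)
    rw [one_div, Real.pow_rpow_inv_natCast kappa_pos.le hm] at h2
    rw [one_div]
    exact h2
  · intro b hb
    refine le_of_tendsto tendsto_Q ?_
    filter_upwards [eventually_ge_atTop 3] with m hm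
    have e1 : Q m = q m := by unfold Q; rw [if_neg (by omega)]
    rw [e1]
    rcases q_spec m with h | ⟨n, G, e, he, hm', hk⟩
    · exfalso
      have h1 := q_three.trans (q_mono hm)
      omega
    · apply hb
      refine ⟨n, G, e, he, ?_⟩
      rw [← hk, hm']
      rfl

end Pool.Agent.Results.MP_16979d_co.GrowthRate
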